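import Mathlib
import Pool.Agent.H26.BL3

set_option autoImplicit false

namespace Pool.Agent.Results.MP_23899c_an.Path

open H26 BL0 BL1 BL3

def DedekindComplete (P : BL) : Prop := ∀ s : Set P, s.Nonempty → BddAbove s → ∃ x, IsLUB s x

def SigmaComplete (P : BL) : Prop :=
  ∀ s : Set P, s.Countable → s.Nonempty → BddAbove s → ∃ x, IsLUB s x

def IsL1Iso (P : BL) (E : ℕ → BL) (Φ : P → ∀ n, E n) : Prop :=
  (∀ x y n, Φ (x + y) n = Φ x n + Φ y n) ∧ (∀ (c : ℝ) x n, Φ (c • x) n = c • Φ x n) ∧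
  (∀ x, HasSum (fun n => ‖Φ x n‖) ‖x‖) ∧
  (∀ f : ∀ n, E n, Summable (fun n => ‖f n‖) → ∃ x, Φ x = f) ∧
  ∀ x y, x ≤ y ↔ ∀ n, Φ x n ≤ Φ y n

def IsL1SumOfFinDim (P : BL) : Prop :=
  ∃ E : ℕ → BL, (∀ n, FiniteDimensional ℝ (E n)) ∧ ∃ Φ, IsL1Iso P E Φ

theorem result : ∃ P : BL, Proj P ∧ DedekindComplete P ∧ SigmaComplete P ∧ ¬ IsL1SumOfFinDim P := by
  classical
  obtain ⟨P, a, h1, h2, h3, h4, h5, h6, h7⟩ := path
  refine ⟨P, h1, h2, fun s _ => h2 s, fun ⟨E, h8, Φ', f1, f2, f3, f4, h9⟩ => ?_⟩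
  let Φ : P →ₗ[ℝ] ∀ n, E n := ⟨⟨Φ', fun x y => funext (f1 x y)⟩, fun c x => funext (f2 c x)⟩
  replace f3 : ∀ x, HasSum (fun n => ‖Φ x n‖) ‖x‖ := f3
  replace f4 : ∀ f : ∀ n, E n, Summable (fun n => ‖f n‖) → ∃ x, Φ x = f := f4
  replace h9 : ∀ x y, x ≤ y ↔ ∀ n, Φ x n ≤ Φ y n := h9
  clear_value Φ
  have h0 : ∀ k n, 0 ≤ Φ (a k) n := fun k n => by simpa using (h9 _ _).1 (h4 k) n
  have key : ∀ k, ∃ n, ∀ m, m ≠ n → Φ (a k) m = 0 := fun k => by
    by_cases h : ∀ n, Φ (a k) n = 0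
    · exact ⟨0, fun m _ => h m⟩
    obtain ⟨n, hn⟩ := not_forall.1 h
    obtain ⟨x, hx⟩ := f4 (Pi.single n (Φ (a k) n)) (summable_of_ne_finset_zero (s := {n})
      fun m hm => by rw [Pi.single_eq_of_ne (by simpa using hm), norm_zero])
    have hs : ∀ m, 0 ≤ Φ x m ∧ Φ x m ≤ Φ (a k) m := fun m => by
      rcases eq_or_ne m n with rfl | h
      · simp [h0, hx]
      · simp [h, h0, hx]
    obtain ⟨c, rfl⟩ := h5 k x ((h9 _ _).2 fun m => by simpa using (hs m).1) ((h9 _ _).2 fun m => (hs m).2)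
    rw [map_smul] at hx
    have : c ≠ 0 := by
      rintro rfl
      exact hn (by simpa using (congrFun hx n).symm)
    exact ⟨n, fun m hm => by simpa [hm, this] using congrFun hx m⟩
  choose n hv using key
  have h12 : ∀ k, 1 ≤ ‖Φ (a k) (n k)‖ := fun k => (h6 k).trans_eq ((f3 _).unique
    (hasSum_single (n k) fun m hm => by rw [hv k m hm, norm_zero]))
  have h10 : ∀ k, n (k + 1) = n k := fun k => by
    by_contra h
    have h11 := sum_le_hasSum {n (k + 1), n k} (fun _ _ => norm_nonneg _) (f3 (a k + a (k + 1)))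
    rw [Finset.sum_pair h, map_add] at h11
    simp [hv k _ h, hv (k + 1) _ (Ne.symm h)] at h11
    linarith [h7 k, h12 k, h12 (k + 1)]
  have h11 : ∀ k, n k = n 0 := fun k => by induction k <;> simp [*]
  have := h8 (n 0)
  refine Module.Finite.not_linearIndependent_of_infinite (R := ℝ) (fun k => Φ (a k) (n 0))
    (linearIndependent_iff'.2 fun s g hg => linearIndependent_iff'.1 h3 s g
      (norm_eq_zero.1 ((f3 _).unique ?_)))
  have : ∀ m, Φ (∑ i ∈ s, g i • a i) m = 0 := fun m => by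
    rcases eq_or_ne m (n 0) with rfl | h
    · simpa using hg
    · simp [fun k => hv k m (h11 k ▸ h)]
  simpa [-map_sum, this] using hasSum_zero

end Pool.Agent.Results.MP_23899c_an.Path
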